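import Pool.Agent.Q237.LR.Stm2

/-! Project LR (helper237), jobs BA and BB. -/

set_option autoImplicit false
set_option linter.unusedSectionVars false
set_option linter.unusedVariables false

open MeasureTheory ProbabilityTheory Set H10PL Pool.Agent.Q237.LR2

namespace Pool.Agent.Q190.LR2

theorem mass (d : ℕ) (μ : Measure ℝ) [IsProbabilityMeasure μ] {K : ℝ} (hK : 0 < K) :
    (mE d μ K) Set.univ = ENNReal.ofReal (2 * K) := by
  have h1 : ((PVg d μ).prod (Ps d)) Set.univ = 1 := measure_univ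
  unfold mE
  rw [← Set.univ_prod_univ, Measure.prod_prod, h1, mul_one,
    Measure.restrict_apply MeasurableSet.univ, Set.univ_inter, Real.volume_Icc]
  congr 1
  ring

/-- JOB BA -/
theorem ba (hM : S_MSR) : S_BA := by
  intro d T0 κ ρ0 b ρ η Λ Q μ K q hμ hA hη hK hq hQ
  have hpos : ∀ y ∈ Q, ∀ p : Pt d, 0 ≤ PL T0 κ ρ η Λ y p := by
    intro y hy p
    unfold PL
    rw [dif_pos (hQ hy)]
    exact (Pm_diag_pos _ (Am_symm hA _ _ _) _ _ hη _).le
  have hmeas : ∀ y, Measurable (PL T0 κ ρ η Λ y) := fun y => (hM d T0 κ ρ η Λ y y).1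
  have hS : MeasurableSet {p : Pt d | ∑ y ∈ Q, PL T0 κ ρ η Λ y p < q} :=
    measurableSet_lt (Finset.measurable_fun_sum Q fun y _ => hmeas y) measurable_const
  rw [← lintegral_finsetSum _ fun x _ => (hmeas x).ennreal_ofReal]
  calc ∫⁻ p in {p : Pt d | ∑ y ∈ Q, PL T0 κ ρ η Λ y p < q},
      ∑ x ∈ Q, ENNReal.ofReal (PL T0 κ ρ η Λ x p) ∂(mE d μ K)
      ≤ ∫⁻ _p in {p : Pt d | ∑ y ∈ Q, PL T0 κ ρ η Λ y p < q}, ENNReal.ofReal q ∂(mE d μ K) := by
        apply setLIntegral_mono' hS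
        intro p hp
        rw [← ENNReal.ofReal_sum_of_nonneg fun y hy => hpos y hy p]
        exact ENNReal.ofReal_le_ofReal (le_of_lt hp)
    _ ≤ ENNReal.ofReal q * (mE d μ K) Set.univ := by
        rw [setLIntegral_const]
        exact mul_le_mul_right (measure_mono (Set.subset_univ _)) _
    _ = ENNReal.ofReal (2 * K * q) := by
        rw [mass d μ hK, ← ENNReal.ofReal_mul hq.le, mul_comm]

theorem restr (d : ℕ) (μ : Measure ℝ) [IsProbabilityMeasure μ] (Λ : Finset (Fin d → ℤ)) :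
    MeasurePreserving (fun (V : (Fin d → ℤ) → ℝ) (y : Λ) => V y) (PVg d μ)
      (Measure.pi fun _ : Λ => μ) := by
  refine ⟨by fun_prop, ?_⟩
  exact Measure.infinitePi_map_restrict (fun _ : (Fin d → ℤ) => μ) (I := Λ)

/-- JOB BB -/
theorem bb (hM : S_MSR) : S_BB := by
  classical
  intro d T0 κ ρ0 b ρ η Λ N μ D K q x hμ hD hμD hA hη hK hq hN hx hxN
  have hPL : Measurable (PL T0 κ ρ η Λ x) := (hM d T0 κ ρ η Λ x x).1
  have hCL : ∀ y, Measurable (CL T0 κ ρ η Λ x y) := fun y => (hM d T0 κ ρ η Λ x y).2.2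
  obtain ⟨S, hSd⟩ : ∃ S : Set (Pt d), S = {p | q ≤ ∑ y ∈ N, CL T0 κ ρ η Λ x y p} := ⟨_, rfl⟩
  rw [← hSd]
  have hS : MeasurableSet S := by
    rw [hSd]
    exact measurableSet_le measurable_const (Finset.measurable_fun_sum N fun y _ => hCL y)
  have hf : Measurable fun p : Pt d => S.indicator (fun p => ENNReal.ofReal (PL T0 κ ρ η Λ x p)) p :=
    hPL.ennreal_ofReal.indicator hS
  rw [← lintegral_indicator hS]
  unfold mE
  have hassoc := measurePreserving_prodAssoc (volume.restrict (Icc (-K) K)) (PVg d μ) (Ps d)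
  have hf2 : Measurable fun a : (ℝ × ((Fin d → ℤ) → ℝ)) × (Sym2 (Fin d → ℤ) → Bool) =>
      S.indicator (fun p => ENNReal.ofReal (PL T0 κ ρ η Λ x p)) (MeasurableEquiv.prodAssoc a) :=
    hf.comp hassoc.measurable
  rw [← hassoc.lintegral_comp hf, lintegral_prod_symm _ hf2.aemeasurable]
  have key : ∀ s : Sym2 (Fin d → ℤ) → Bool,
      ∫⁻ p : ℝ × ((Fin d → ℤ) → ℝ), S.indicator (fun p => ENNReal.ofReal (PL T0 κ ρ η Λ x p))
        (MeasurableEquiv.prodAssoc (p, s)) ∂((volume.restrict (Icc (-K) K)).prod (PVg d μ)) ≤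
      ENNReal.ofReal (2 * K * (Real.pi * D) ^ 2 * N.card / q) := by
    intro s
    obtain ⟨A, hAd⟩ : ∃ A : Matrix Λ Λ ℝ, A = Am T0 κ ρ Λ s := ⟨_, rfl⟩
    have hAs : A.IsSymm := by rw [hAd]; exact Am_symm hA _ _ _
    have hAg : ∀ i, A i i = 0 := by rw [hAd]; exact Am_diag hA _ _ _
    obtain ⟨N', hN'⟩ : ∃ N' : Finset Λ, N' = N.subtype (· ∈ Λ) := ⟨_, rfl⟩
    have hcard : N'.card = N.card := by
      rw [hN', Finset.card_subtype, Finset.filter_true_of_mem fun y hy => hN hy]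
    have hb := bad2 μ hD hμD A hAs hAg (⟨x, hx⟩ : Λ) hK hη hq N' (by
      rw [hN', Finset.mem_subtype]
      exact hxN)
    rw [hcard] at hb
    refine le_trans (le_of_eq ?_) hb
    obtain ⟨S', hS'd⟩ : ∃ S' : Set (ℝ × (Λ → ℝ)), S' = {p : ℝ × (Λ → ℝ) |
        q ≤ ∑ y ∈ N', Pm (cut A ⟨x, hx⟩) p.2 p.1 η y y} := ⟨_, rfl⟩
    have hS' : MeasurableSet S' := by
      rw [hS'd]
      exact measurableSet_le measurable_const (Finset.measurable_fun_sum N' fun y _ =>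
        Mom.meas_EV (cut A ⟨x, hx⟩) η y)
    rw [← hS'd, ← lintegral_indicator hS']
    have hg : Measurable fun r : ℝ × (Λ → ℝ) => S'.indicator (fun r =>
        ENNReal.ofReal (Pm A r.2 r.1 η ⟨x, hx⟩ ⟨x, hx⟩)) r :=
      (Mom.meas_EV A η ⟨x, hx⟩).ennreal_ofReal.indicator hS'
    have hmp := (MeasurePreserving.id (volume.restrict (Icc (-K) K))).prod (restr d μ Λ)
    rw [← hmp.lintegral_comp hg]
    refine lintegral_congr fun p => ?_
    have e1 : (∑ y ∈ N, CL T0 κ ρ η Λ x y (p.1, p.2, s)) =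
        ∑ y ∈ N', Pm (cut A ⟨x, hx⟩) (fun i : Λ => p.2 i) p.1 η y y := by
      rw [hN', ← Finset.sum_subtype_of_mem _ (fun y hy => hN hy)]
      refine Finset.sum_congr rfl fun y _ => ?_
      unfold CL
      rw [dif_pos hx, dif_pos y.2, hAd]
    have e2 : PL T0 κ ρ η Λ x (p.1, p.2, s) =
        Pm A (fun i : Λ => p.2 i) p.1 η ⟨x, hx⟩ ⟨x, hx⟩ := by
      unfold PL
      rw [dif_pos hx, hAd]
    have e3 : ((p.1, p.2, s) : Pt d) ∈ S ↔ ((p.1, fun i : Λ => p.2 i) : ℝ × (Λ → ℝ)) ∈ S' := by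
      rw [hSd, hS'd]
      show q ≤ ∑ y ∈ N, CL T0 κ ρ η Λ x y (p.1, p.2, s) ↔
        q ≤ ∑ y ∈ N', Pm (cut A ⟨x, hx⟩) (fun i : Λ => p.2 i) p.1 η y y
      rw [e1]
    show S.indicator (fun p => ENNReal.ofReal (PL T0 κ ρ η Λ x p)) (p.1, p.2, s) =
      S'.indicator (fun r => ENNReal.ofReal (Pm A r.2 r.1 η ⟨x, hx⟩ ⟨x, hx⟩))
        (p.1, fun i : Λ => p.2 i)
    by_cases h : ((p.1, p.2, s) : Pt d) ∈ S
    · rw [Set.indicator_of_mem h, Set.indicator_of_mem (e3.1 h), e2]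
    · rw [Set.indicator_of_notMem h, Set.indicator_of_notMem fun h' => h (e3.2 h')]
  refine (lintegral_mono key).trans ?_
  rw [lintegral_const, measure_univ, mul_one]

end Pool.Agent.Q190.LR2
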