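import Pool.Agent.Q237.LR.Stm

/-! Project LR (helper237), jobs LIM and CHI. -/

set_option autoImplicit false
set_option linter.unusedSectionVars false
set_option linter.unusedVariables false

open MeasureTheory ProbabilityTheory H10PL Pool.Agent.Q237.LR

namespace Pool.Agent.Q190.LR

theorem bd_mono {d : ℕ} {a : (Fin d → ℤ) → (Fin d → ℤ) → ℝ} {ε : ℝ} {Λ Λ' : Finset (Fin d → ℤ)}
    (h : Λ ⊆ Λ') {s : Sym2 (Fin d → ℤ) → Bool} (hb : BdOn a ε Λ' s) : BdOn a ε Λ s := by
  classical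
  intro u v
  obtain ⟨e, he⟩ : ∃ e : ((Fin d → ℤ) → ℝ) → ((Fin d → ℤ) → ℝ),
      e = fun u y => if y ∈ Λ then u y else 0 := ⟨_, rfl⟩
  have e1 : ∀ (u : (Fin d → ℤ) → ℝ) (y : Fin d → ℤ), y ∈ Λ → e u y = u y := by
    intro u y hy
    rw [he]
    exact if_pos hy
  have e2 : ∀ (u : (Fin d → ℤ) → ℝ) (y : Fin d → ℤ), y ∉ Λ → e u y = 0 := by
    intro u y hy
    rw [he]
    exact if_neg hy
  have h1 := hb (e u) (e v)
  have h2 : ∀ u : (Fin d → ℤ) → ℝ, ∑ y ∈ Λ', e u y ^ 2 = ∑ y ∈ Λ, u y ^ 2 := by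
    intro u
    rw [← Finset.sum_subset h fun y _ hy => by rw [e2 u y hy]; ring]
    refine Finset.sum_congr rfl fun y hy => ?_
    rw [e1 u y hy]
  have h3 : ∑ y ∈ Λ', ∑ w ∈ Λ', a y w * sg (s s(y, w)) * (e u y * e v w) =
      ∑ y ∈ Λ, ∑ w ∈ Λ, a y w * sg (s s(y, w)) * (u y * v w) := by
    rw [← Finset.sum_subset h fun y _ hy => by
      refine Finset.sum_eq_zero fun w _ => ?_
      rw [e2 u y hy]
      ring]
    refine Finset.sum_congr rfl fun y hy => ?_
    rw [← Finset.sum_subset h fun w _ hw => by rw [e2 v w hw]; ring]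
    refine Finset.sum_congr rfl fun w hw => ?_
    rw [e1 u y hy, e1 v w hw]
  rw [h2, h2, h3] at h1
  exact h1

/-- JOB LIM -/
theorem lim : S_LIM := by
  intro d a ε p h
  have h1 : {s : Sym2 (Fin d → ℤ) → Bool | ¬ ∀ Λ, BdOn a ε Λ s} = ⋃ Λ, {s | ¬ BdOn a ε Λ s} := by
    ext s
    simp only [Set.mem_setOf_eq, Set.mem_iUnion, not_forall]
  rw [h1, Directed.measure_iUnion]
  · exact iSup_le h
  · refine Monotone.directed_le ?_
    intro Λ Λ' hΛ s hs hb
    exact hs (bd_mono hΛ hb)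

theorem lip (a b : ℝ) : |min 1 (max 0 (2 - a)) - min 1 (max 0 (2 - b))| ≤ |a - b| := by
  have h1 := le_abs_self (a - b)
  have h2 := neg_abs_le (a - b)
  have h3 := abs_nonneg (a - b)
  rw [abs_le]
  constructor
  · simp only [min_def, max_def]
    split_ifs <;> linarith
  · simp only [min_def, max_def]
    split_ifs <;> linarith

/-- JOB CHI -/
theorem chi : S_CHI := by
  classical
  intro d R hR
  have hR0 : (0 : ℝ) < R := by exact_mod_cast hR
  obtain ⟨B, hB⟩ : ∃ B : Finset (Fin d → ℤ),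
      B = Fintype.piFinset fun _ => Finset.Icc (-(2 * (R : ℤ))) (2 * R) := ⟨_, rfl⟩
  have hsup : ∀ y : Fin d → ℤ, min 1 (max 0 (2 - ‖y‖ / R)) ≠ 0 → y ∈ B := by
    intro y hy
    rw [hB, Fintype.mem_piFinset]
    by_contra hcon
    push Not at hcon
    obtain ⟨i, hi⟩ := hcon
    apply hy
    have h1 : (2 * R : ℝ) ≤ |(y i : ℝ)| := by
      by_contra h2
      push Not at h2
      apply hi
      rw [Finset.mem_Icc]
      have h3 : |y i| < 2 * (R : ℤ) := by exact_mod_cast h2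
      rw [abs_lt] at h3
      exact ⟨h3.1.le, h3.2.le⟩
    have h2 : |(y i : ℝ)| ≤ ‖y‖ := by
      have h3 := norm_le_pi_norm y i
      rwa [Int.norm_eq_abs] at h3
    have h3 : 2 ≤ ‖y‖ / R := by
      rw [le_div_iff₀ hR0]
      linarith
    rw [max_eq_left (by linarith), min_eq_right zero_le_one]
  refine ⟨Finsupp.onFinset B (fun y => min 1 (max 0 (2 - ‖y‖ / R))) hsup, ?_, ?_, ?_, ?_⟩
  · intro y
    rw [Finsupp.onFinset_apply]
    exact ⟨le_min zero_le_one (le_max_left _ _), min_le_left _ _⟩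
  · intro y hy
    rw [Finsupp.onFinset_apply]
    have h1 : ‖y‖ / R ≤ 1 := by
      rw [div_le_iff₀ hR0]
      linarith
    exact min_eq_left (le_trans (by linarith) (le_max_right _ _))
  · intro y w
    rw [Finsupp.onFinset_apply, Finsupp.onFinset_apply]
    refine (lip _ _).trans ?_
    rw [← sub_div, abs_div, abs_of_pos hR0]
    exact div_le_div_of_nonneg_right (abs_norm_sub_norm_le y w) hR0.le
  · have h1 : (Finsupp.onFinset B (fun y => min 1 (max 0 (2 - ‖y‖ / R))) hsup).support ⊆ B :=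
      Finsupp.support_onFinset_subset
    refine (Finset.card_le_card h1).trans (le_of_eq ?_)
    rw [hB, Fintype.card_piFinset]
    rw [Finset.prod_const, Int.card_Icc, Finset.card_univ, Fintype.card_fin]
    congr 1
    omega

end Pool.Agent.Q190.LR
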